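import Pool.Agent.Q31.GLV.Stm

/-!
# Job SW of project GLV (swindle)
-/

set_option autoImplicit false

namespace Pool.Agent.Q230.GLV

open Module Cardinal Submodule Pool.Agent.Q31.GLV

section
variable {F X : Type} [Field F] [AddCommGroup X] [Module F X]

/-- splitting off the coordinate `0` -/
noncomputable def spl (F X : Type) [Field F] [AddCommGroup X] [Module F X] :
    (ℕ →₀ X) ≃ₗ[F] (ℕ →₀ X) × X :=
  ((Finsupp.domLCongr (R := F) (M := X) Equiv.natSumPUnitEquivNat.{0}.symm).trans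
    (Finsupp.sumFinsuppLEquivProdFinsupp F)).trans
      (LinearEquiv.prodCongr (LinearEquiv.refl F _) (Finsupp.LinearEquiv.finsuppUnique F X PUnit.{1}))

/-- `f` on all coordinates -/
noncomputable def mp (f : X ≃ₗ[F] X) : (ℕ →₀ X) ≃ₗ[F] (ℕ →₀ X) :=
  Finsupp.mapRange.linearEquiv f

lemma spl_mp (f : X ≃ₗ[F] X) (u : ℕ →₀ X) :
    spl F X (mp f u) = (mp f (spl F X u).1, f (spl F X u).2) := by
  refine Prod.ext ?_ ?_
  · ext n
    simp [spl, mp]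
  · simp only [spl, mp, LinearEquiv.trans_apply, LinearEquiv.prodCongr_apply,
      Finsupp.LinearEquiv.finsuppUnique_apply]
    simp

lemma mp_symm (f : X ≃ₗ[F] X) (u : ℕ →₀ X) : mp f ((mp f).symm u) = u :=
  (mp f).apply_symm_apply u

end

theorem t_SW (hWH : S_WH) : S_SW := by
  intro F V X Y _ _ _ _ _ _ _ φ hV hX hY S hS f t ht
  have hX' : Module.rank F (ℕ →₀ X) = Module.rank F V := by
    rw [rank_finsupp, hX]
    simp only [Cardinal.mk_nat, Cardinal.lift_id]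
    exact Cardinal.mul_eq_right hV hV Cardinal.aleph0_ne_zero
  have hY' : Module.rank F Y = Module.rank F ((ℕ →₀ X) × (ℕ →₀ X)) := by
    rw [rank_prod', hX', hY, Cardinal.add_eq_self hV]
  obtain ⟨ψ⟩ := Module.nonempty_linearEquiv_iff_rank_eq.2 hY'
  -- first factor
  let φ₁ : V ≃ₗ[F] (ℕ →₀ X) × (ℕ →₀ X) × X :=
    ((φ.trans (LinearEquiv.prodComm F X Y)).trans (LinearEquiv.prodCongr ψ (LinearEquiv.refl F X))).trans
      (LinearEquiv.prodAssoc F (ℕ →₀ X) (ℕ →₀ X) X)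
  have hφ₁ : ∀ v, φ₁ v = ((ψ (φ v).2).1, (ψ (φ v).2).2, (φ v).1) := fun v => rfl
  let D₁ : ((ℕ →₀ X) × (ℕ →₀ X) × X) ≃ₗ[F] ((ℕ →₀ X) × (ℕ →₀ X) × X) :=
    LinearEquiv.prodCongr (mp f) (LinearEquiv.prodCongr (mp f).symm (LinearEquiv.refl F X))
  let t₁ : V ≃ₗ[F] V := (φ₁.trans D₁).trans φ₁.symm
  have ht₁ : ∀ v, φ₁ (t₁ v) = (mp f (φ₁ v).1, (mp f).symm (φ₁ v).2.1, (φ₁ v).2.2) := by
    intro v
    change φ₁ (φ₁.symm (D₁ (φ₁ v))) = _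
    rw [LinearEquiv.apply_symm_apply]
    rfl
  have h1 : t₁ ∈ S := hWH F V (ℕ →₀ X) X φ₁ hV hX' S hS (mp f) t₁ ht₁
  -- second factor
  let φ₂ : V ≃ₗ[F] (ℕ →₀ X) × (ℕ →₀ X) × PUnit :=
    ((φ₁.trans ((LinearEquiv.refl F (ℕ →₀ X)).prodCongr (spl F X).symm)).trans
      (LinearEquiv.prodComm F (ℕ →₀ X) (ℕ →₀ X))).trans
      ((LinearEquiv.refl F (ℕ →₀ X)).prodCongr (LinearEquiv.prodUnique (R := F) (M := ℕ →₀ X) (M₂ := PUnit)).symm)
  have hφ₂ : ∀ v, φ₂ v = ((spl F X).symm (φ₁ v).2, (φ₁ v).1, PUnit.unit) := fun v => rfl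
  let D₂ : ((ℕ →₀ X) × (ℕ →₀ X) × PUnit) ≃ₗ[F] ((ℕ →₀ X) × (ℕ →₀ X) × PUnit) :=
    LinearEquiv.prodCongr (mp f) (LinearEquiv.prodCongr (mp f).symm (LinearEquiv.refl F PUnit))
  let t₂ : V ≃ₗ[F] V := (φ₂.trans D₂).trans φ₂.symm
  have ht₂ : ∀ v, φ₂ (t₂ v) = (mp f (φ₂ v).1, (mp f).symm (φ₂ v).2.1, (φ₂ v).2.2) := by
    intro v
    change φ₂ (φ₂.symm (D₂ (φ₂ v))) = _
    rw [LinearEquiv.apply_symm_apply]
    rfl
  have h2 : t₂ ∈ S := hWH F V (ℕ →₀ X) PUnit φ₂ hV hX' S hS (mp f) t₂ ht₂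
  have h3 : t = t₁ * t₂ := by
    refine LinearEquiv.ext fun v => ?_
    apply φ₁.injective
    change φ₁ (t v) = φ₁ (t₁ (t₂ v))
    have e2 := ht₂ v
    rw [hφ₂, hφ₂] at e2
    have e3 : (φ₁ (t₂ v)).1 = (mp f).symm (φ₁ v).1 := congrArg (fun z => z.2.1) e2
    have e4 : (φ₁ (t₂ v)).2 = (mp f (φ₁ v).2.1, f (φ₁ v).2.2) := by
      have e5 : (spl F X).symm (φ₁ (t₂ v)).2 = mp f ((spl F X).symm (φ₁ v).2) :=
        congrArg (fun z => z.1) e2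
      rw [LinearEquiv.symm_apply_eq, spl_mp, LinearEquiv.apply_symm_apply] at e5
      exact e5
    rw [ht₁, e3, e4, hφ₁, hφ₁, ht v]
    simp [LinearEquiv.apply_symm_apply, LinearEquiv.symm_apply_apply]
  rw [h3]
  exact S.mul_mem h1 h2

end Pool.Agent.Q230.GLV
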